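import Pool.Agent.W448.FF.Stmts

/-! Project FF, task PTD: the real algebra behind the pointwise bound of the defects. -/

set_option autoImplicit false

namespace Pool.Agent.W605.FF

open Pool.Agent.W448.FF

theorem ptd : S_PTD := by
  intro e0 e1 e2 n0 n1 n2 he h0 h1 h2 hn0 hn1 hn2 hm0 hm1 hm2 hq hc1 hc2
  set a : ℝ := 1 / 3 + e0 - n0 with ha
  have ha0 : 0 ≤ a := by linarith
  have hn : n0 = 1 / 3 + e0 - a := by linarith
  have he0 : e0 = -e1 - e2 := by linarith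
  obtain ⟨h1l, h1u⟩ := abs_le.1 h1
  obtain ⟨h2l, h2u⟩ := abs_le.1 h2
  have hid : (n0 + n1 + n2 - 1 / 3) ^ 2 + 2 * (n0 * (1 / 3 + e0 - n0) + n1 * (1 / 3 + e1 - n1) +
      n2 * (1 / 3 + e2 - n2)) = e0 ^ 2 + (a + n1 + n2) * (2 / 3 - (a + n1 + n2)) + 4 * (n1 * n2) -
      2 * (e2 * n1) - 2 * (e1 * n2) := by
    rw [hn, he0]; ring
  rw [hid] at hq
  generalize hD : a + n1 + n2 = D at *
  have hu : a + n1 ≤ 1 / 3 - e2 / 2 := by linarith
  have hv : a + n2 ≤ 1 / 3 - e1 / 2 := by linarith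
  have b1 : e2 * n1 ≤ 99 / 1000 * n1 := mul_le_mul_of_nonneg_right h2u hn1
  have b2 : e1 * n2 ≤ 99 / 1000 * n2 := mul_le_mul_of_nonneg_right h1u hn2
  have b3 : 0 ≤ e0 ^ 2 := sq_nonneg _
  have b4 : 0 ≤ n1 * n2 := mul_nonneg hn1 hn2
  by_contra hcon
  push Not at hcon
  rcases le_or_gt D (41 / 100) with hd | hd
  · have h3 := mul_nonneg (sub_nonneg.2 hcon.le) (sub_nonneg.2 hd)
    linarith
  · -- `s = n1 - (D - c)`, `t = n2 - (D - c)`
    have hs : 0 ≤ n1 - (D - 38285 / 100000) := by linarith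
    have ht : 0 ≤ n2 - (D - 38285 / 100000) := by linarith
    have hst := mul_nonneg hs ht
    have hS : n1 + n2 ≤ D := by linarith
    rcases le_or_gt D (43235 / 100000) with hd2 | hd2
    · have hS2 : 0 ≤ D - (n1 + n2) := by linarith
      have h5 : 0 ≤ 198 / 1000 - 4 * (D - 38285 / 100000) := by linarith
      have h6 := mul_nonneg hS2 h5
      have h7 := mul_nonneg (sub_nonneg.2 hd.le) (sub_nonneg.2 hd2)
      linarith
    · have h5 : 0 ≤ 4 * (D - 38285 / 100000) - 198 / 1000 := by linarith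
      have h6 := mul_nonneg (add_nonneg hs ht) h5
      have h7 := sq_nonneg (D - 465 / 1000)
      linarith

end Pool.Agent.W605.FF
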